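import Pool.Agent.Y343.LD.Stm

/-! LD-QI: the property that the functions with finite Dirichlet energy are constants plus
square-summable functions is invariant under quasi-isometries. -/

set_option autoImplicit false

namespace Pool.Agent.Y154.LD

open Pool.Agent.Y343.LC Pool.Agent.Y343.LD

/-! ### maps with bounded fibres -/

/-- the fibres of `π` have at most `K` elements -/
def FB {α β : Type} (π : α → β) (K : ℕ) : Prop :=
  ∀ (F : Finset α) (b : β), (∀ a ∈ F, π a = b) → F.card ≤ K

theorem FB.inj {α β : Type} {π : α → β} (h : Function.Injective π) : FB π 1 := by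
  intro F b hF
  rw [Finset.card_le_one]
  intro x hx y hy
  exact h ((hF x hx).trans (hF y hy).symm)

theorem sq_comp {α β : Type} {π : α → β} {K : ℕ} (hK : FB π K) {h : β → ℂ} (hh : Sq h) :
    Sq fun a => h (π a) := by
  classical
  refine summable_of_sum_le (fun a => by positivity) (c := K * ∑' b, ‖h b‖ ^ 2) fun F => ?_
  have h1 : ∑ a ∈ F, ‖h (π a)‖ ^ 2 =
      ∑ b ∈ F.image π, ∑ a ∈ F.filter (fun a => π a = b), ‖h (π a)‖ ^ 2 :=
    (Finset.sum_fiberwise_of_maps_to (fun a ha => Finset.mem_image_of_mem π ha) _).symm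
  rw [h1]
  have h2 : ∀ b ∈ F.image π, ∑ a ∈ F.filter (fun a => π a = b), ‖h (π a)‖ ^ 2 ≤
      K * ‖h b‖ ^ 2 := by
    intro b _
    have h3 : ∑ a ∈ F.filter (fun a => π a = b), ‖h (π a)‖ ^ 2 =
        ∑ _a ∈ F.filter (fun a => π a = b), ‖h b‖ ^ 2 := by
      refine Finset.sum_congr rfl fun a ha => ?_
      rw [(Finset.mem_filter.1 ha).2]
    rw [h3, Finset.sum_const, nsmul_eq_mul]
    have h4 : (((F.filter (fun a => π a = b)).card : ℕ) : ℝ) ≤ K := by
      exact_mod_cast hK _ b (fun a ha => (Finset.mem_filter.1 ha).2)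
    exact mul_le_mul_of_nonneg_right h4 (by positivity)
  refine (Finset.sum_le_sum h2).trans ?_
  rw [← Finset.mul_sum]
  exact mul_le_mul_of_nonneg_left (hh.sum_le_tsum _ (fun _ _ => by positivity))
    (Nat.cast_nonneg K)

theorem sq_add {α : Type} {f g : α → ℂ} (hf : Sq f) (hg : Sq g) : Sq fun a => f a + g a := by
  unfold Sq at *
  refine Summable.of_nonneg_of_le (fun a => by positivity) (fun a => ?_)
    ((hf.add hg).mul_left 2)
  have h1 := norm_add_le (f a) (g a)
  have h2 : ‖f a + g a‖ ^ 2 ≤ (‖f a‖ + ‖g a‖) ^ 2 :=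
    pow_le_pow_left₀ (norm_nonneg _) h1 2
  nlinarith [sq_nonneg (‖f a‖ - ‖g a‖)]

theorem sq_neg {α : Type} {f : α → ℂ} (hf : Sq f) : Sq fun a => -f a := by
  unfold Sq at *
  simpa only [norm_neg] using hf

/-! ### balls -/

/-- balls of radius `R` have at most `M` elements -/
def BB {V : Type} (X : SimpleGraph V) (R M : ℕ) : Prop :=
  ∀ (v : V) (F : Finset V), (∀ w ∈ F, X.dist v w ≤ R) → F.card ≤ M

theorem step {V : Type} {X : SimpleGraph V} (hX : X.Connected) {p q : V} {n : ℕ}
    (h : X.dist p q ≤ n + 1) : ∃ r, X.dist p r ≤ n ∧ (r = q ∨ X.Adj r q) := by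
  rcases Nat.lt_or_ge n (X.dist p q) with h1 | h1
  · obtain ⟨w, hw⟩ := (hX q p).exists_walk_length_eq_dist
    rw [SimpleGraph.dist_comm] at hw
    cases w with
    | nil =>
      rw [SimpleGraph.Walk.length_nil] at hw
      omega
    | cons ha w' =>
      rename_i r
      rw [SimpleGraph.Walk.length_cons] at hw
      refine ⟨r, ?_, Or.inr ha.symm⟩
      have h2 := SimpleGraph.dist_le w'
      rw [SimpleGraph.dist_comm]
      omega
  · exact ⟨q, h1, Or.inl rfl⟩

theorem ball_bound {V : Type} {X : SimpleGraph V} (hX : X.Connected) (hD : BddDegree X) :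
    ∀ R : ℕ, ∃ M : ℕ, BB X R M := by
  classical
  obtain ⟨D, hD⟩ := hD
  intro R
  induction R with
  | zero =>
    refine ⟨1, fun v F hF => ?_⟩
    rw [Finset.card_le_one]
    intro x hx y hy
    have h1 := hF x hx
    have h2 := hF y hy
    rw [Nat.le_zero, hX.dist_eq_zero_iff] at h1 h2
    rw [← h1, ← h2]
  | succ R ih =>
    obtain ⟨M, hM⟩ := ih
    refine ⟨(D + 1) * M, fun v F hF => ?_⟩
    have h1 : ∀ w : V, ∃ r : V, w ∈ F → X.dist v r ≤ R ∧ (r = w ∨ X.Adj r w) := by
      intro w
      by_cases hw : w ∈ F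
      · obtain ⟨r, h2, h3⟩ := step hX (hF w hw)
        exact ⟨r, fun _ => ⟨h2, h3⟩⟩
      · exact ⟨v, fun h => absurd h hw⟩
    choose r hr using h1
    refine (Finset.card_le_mul_card_image F (D + 1) (f := r) ?_).trans
      (Nat.mul_le_mul_left _ (hM v _ ?_))
    · intro u _
      have h2 : F.filter (fun w => r w = u) ⊆ insert u (hD u).1.toFinset := by
        intro w hw
        obtain ⟨hw1, hw2⟩ := Finset.mem_filter.1 hw
        rw [Finset.mem_insert, Set.Finite.mem_toFinset]
        rcases (hr w hw1).2 with h | h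
        · left
          rw [← h, hw2]
        · right
          rw [hw2] at h
          exact h
      refine (Finset.card_le_card h2).trans ((Finset.card_insert_le _ _).trans ?_)
      rw [← Set.ncard_eq_toFinset_card _ (hD u).1]
      have := (hD u).2
      omega
    · intro u hu
      obtain ⟨w, hw, rfl⟩ := Finset.mem_image.1 hu
      exact (hr w hw).1

/-! ### the energy -/

theorem disp {V : Type} {X : SimpleGraph V} (hX : X.Connected) (hD : BddDegree X) {φ : V → ℂ}
    (hφ : Dirichlet X φ) : ∀ (R : ℕ) (α : Type) (p q : α → V) (K : ℕ), FB p K →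
      (∀ a, X.dist (p a) (q a) ≤ R) → Sq fun a => φ (q a) - φ (p a) := by
  classical
  have hh : Sq (fun e : V × V => if X.Adj e.1 e.2 then φ e.2 - φ e.1 else 0) := by
    unfold Dirichlet Sq at hφ
    have h1 := (summable_subtype_iff_indicator (s := {p : V × V | X.Adj p.1 p.2})
      (f := fun e : V × V => ‖φ e.2 - φ e.1‖ ^ 2)).1 hφ
    unfold Sq
    refine h1.congr fun e => ?_
    show _ = ‖(if X.Adj e.1 e.2 then φ e.2 - φ e.1 else 0 : ℂ)‖ ^ 2
    by_cases he : X.Adj e.1 e.2
    · rw [if_pos he, Set.indicator_of_mem (show e ∈ {p : V × V | X.Adj p.1 p.2} from he)]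
    · rw [if_neg he, Set.indicator_of_notMem (show e ∉ {p : V × V | X.Adj p.1 p.2} from he)]
      simp
  intro R
  induction R with
  | zero =>
    intro α p q K _ h
    have h1 : (fun a => φ (q a) - φ (p a)) = fun _ => 0 := by
      funext a
      have h2 := h a
      rw [Nat.le_zero, hX.dist_eq_zero_iff] at h2
      rw [h2, sub_self]
    rw [h1]
    unfold Sq
    simp
  | succ R ih =>
    intro α p q K hK h
    choose r hr1 hr2 using fun a => step hX (h a)
    have h1 := ih α p r K hK hr1
    obtain ⟨M, hM⟩ := ball_bound hX hD R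
    have h2 : FB (fun a => (r a, q a)) (K * M) := by
      intro F b hF
      refine (Finset.card_le_mul_card_image F K (f := p) ?_).trans
        (Nat.mul_le_mul_left _ (hM b.1 _ ?_))
      · intro v _
        exact hK _ v (fun a ha => (Finset.mem_filter.1 ha).2)
      · intro v hv
        obtain ⟨a, ha, rfl⟩ := Finset.mem_image.1 hv
        have h3 := hF a ha
        rw [← h3, SimpleGraph.dist_comm]
        exact hr1 a
    have h3 := sq_comp h2 hh
    have h4 := sq_add h3 h1
    have h5 : (fun a => φ (q a) - φ (p a)) = fun a =>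
        (if X.Adj (r a) (q a) then φ (q a) - φ (r a) else 0) + (φ (r a) - φ (p a)) := by
      funext a
      by_cases he : X.Adj (r a) (q a)
      · rw [if_pos he]
        ring
      · rw [if_neg he, (hr2 a).resolve_right he]
        ring
    rw [h5]
    exact h4

/-! ### the theorem -/

theorem t_QI : StmQI := by
  classical
  rintro V W X Y hX hD hY hE ⟨f, g, C, hf, hg, hgf, hfg⟩ hDC φ hφ
  obtain ⟨M, hM⟩ := ball_bound hX hD C
  obtain ⟨M', hM'⟩ := ball_bound hY hE C
  have fbg : FB g M' := by
    intro F b hF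
    refine hM' (f b) F fun a ha => ?_
    rw [← hF a ha]
    exact hfg a
  have fbf : FB f M := by
    intro F b hF
    refine hM (g b) F fun v hv => ?_
    rw [← hF v hv]
    exact hgf v
  have h3 : Dirichlet Y (fun a => φ (g a)) := by
    obtain ⟨D, hE⟩ := hE
    have h4 : FB (fun p : {p : W × W // Y.Adj p.1 p.2} => g p.1.1) (D * M') := by
      intro F b hF
      refine (Finset.card_le_mul_card_image F D (f := fun p => p.1.1) ?_).trans
        (Nat.mul_le_mul_left _ (fbg _ b ?_))
      · intro u _
        have h5 : ((F.filter (fun p => p.1.1 = u)).image (fun p => p.1.2)) ⊆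
            (hE u).1.toFinset := by
          intro w hw
          obtain ⟨p, hp, rfl⟩ := Finset.mem_image.1 hw
          rw [Set.Finite.mem_toFinset]
          have h6 := (Finset.mem_filter.1 hp).2
          show Y.Adj u p.1.2
          rw [← h6]
          exact p.2
        have h7 : (F.filter (fun p => p.1.1 = u)).card =
            ((F.filter (fun p => p.1.1 = u)).image (fun p => p.1.2)).card := by
          refine (Finset.card_image_of_injOn ?_).symm
          intro p hp q hq hpq
          have h8 := (Finset.mem_filter.1 (Finset.mem_coe.1 hp)).2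
          have h9 := (Finset.mem_filter.1 (Finset.mem_coe.1 hq)).2
          exact Subtype.ext (Prod.ext (h8.trans h9.symm) hpq)
        rw [h7]
        refine (Finset.card_le_card h5).trans ?_
        rw [← Set.ncard_eq_toFinset_card _ (hE u).1]
        exact (hE u).2
      · intro a ha
        obtain ⟨p, hp, rfl⟩ := Finset.mem_image.1 ha
        exact hF p hp
    exact disp hX hD hφ (C * 1 + C) {p : W × W // Y.Adj p.1 p.2} (fun p => g p.1.1)
      (fun p => g p.1.2) (D * M') h4 (fun p => by
        refine (hg p.1.1 p.1.2).trans ?_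
        rw [SimpleGraph.dist_eq_one_iff_adj.2 p.2])
  obtain ⟨k, hk⟩ := hDC _ h3
  refine ⟨k, ?_⟩
  have h10 := sq_comp fbf hk
  have h11 := disp hX hD hφ C V (fun v => v) (fun v => g (f v)) 1
    (FB.inj Function.injective_id) (fun v => by
      rw [SimpleGraph.dist_comm]
      exact hgf v)
  have h12 := sq_add (sq_neg h11) h10
  have h13 : (fun v => φ v - k) = fun v => -(φ (g (f v)) - φ v) + (φ (g (f v)) - k) := by
    funext v
    ring
  rw [h13]
  exact h12

end Pool.Agent.Y154.LD
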